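import Pool.Agent.helper22.DL.SpecE1

/-! # Project dl, module EKC: the weight, partial fractions -/

namespace Pool.Agent.DL

open Matrix Complex MeasureTheory Set Filter Topology
open scoped ComplexOrder Manifold ContDiff ComplexConjugate

noncomputable section

/-- the eighth roots of unity -/
def EKC_om (k : Fin 8) : ℂ := cexp (2 * Real.pi * I * ((k : ℕ) : ℂ) / 8)

/-- the primitive root -/
def EKC_w : ℂ := cexp (2 * Real.pi * I / ((8 : ℕ) : ℂ))

theorem EKC_prim : IsPrimitiveRoot EKC_w 8 := Complex.isPrimitiveRoot_exp 8 (by norm_num)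

theorem EKC_om_eq (k : Fin 8) : EKC_om k = EKC_w ^ (k : ℕ) := by
  unfold EKC_om EKC_w
  rw [← Complex.exp_nat_mul]
  congr 1
  push_cast
  ring

theorem EKC_om8 (k : Fin 8) : EKC_om k ^ 8 = 1 := by
  rw [EKC_om_eq, ← pow_mul, mul_comm, pow_mul, EKC_prim.pow_eq_one, one_pow]

theorem EKC_norm (k : Fin 8) : ‖EKC_om k‖ = 1 :=
  norm_eq_one_of_pow_eq_one (EKC_om8 k) (by norm_num)

theorem EKC_sum (i : ℕ) (hi : i < 8) :
    ∑ k : Fin 8, EKC_om k ^ (i + 1) = if i = 7 then 8 else 0 := by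
  by_cases h : i = 7
  · subst h
    rw [if_pos rfl]
    simp only [show 7 + 1 = 8 from rfl, EKC_om8]
    simp
  · rw [if_neg h]
    have hx : EKC_w ^ (i + 1) ≠ 1 :=
      EKC_prim.pow_ne_one_of_pos_of_lt (by omega) (by omega)
    have e : ∑ k : Fin 8, EKC_om k ^ (i + 1) = ∑ k ∈ Finset.range 8, (EKC_w ^ (i + 1)) ^ k := by
      rw [Finset.sum_range]
      refine Finset.sum_congr rfl fun k _ => ?_
      rw [EKC_om_eq, ← pow_mul, ← pow_mul, mul_comm]
    rw [e, geom_sum_eq hx, ← pow_mul, mul_comm, pow_mul, EKC_prim.pow_eq_one, one_pow, sub_self,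
      zero_div]

theorem EKC_geom (z : ℂ) (k : Fin 8) :
    (∑ i ∈ Finset.range 8, EKC_om k ^ i * z ^ (7 - i)) * (EKC_om k - z) = 1 - z ^ 8 := by
  have h := geom_sum₂_mul (EKC_om k) z 8
  rw [EKC_om8] at h
  exact h

theorem EKC_one (z : ℂ) (hz : z ^ 8 ≠ 1) :
    (1 - z ^ 8)⁻¹ = (1 / 8) * ∑ k : Fin 8, EKC_om k / (EKC_om k - z) := by
  have hne : 1 - z ^ 8 ≠ 0 := sub_ne_zero.2 hz.symm
  have hk : ∀ k : Fin 8, EKC_om k - z ≠ 0 := by
    intro k h
    apply hz
    rw [← sub_eq_zero.1 h]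
    exact EKC_om8 k
  have h8 : ∑ k : Fin 8, EKC_om k * ∑ i ∈ Finset.range 8, EKC_om k ^ i * z ^ (7 - i) = 8 := by
    have e1 : ∀ k : Fin 8, EKC_om k * ∑ i ∈ Finset.range 8, EKC_om k ^ i * z ^ (7 - i) =
        ∑ i ∈ Finset.range 8, EKC_om k ^ (i + 1) * z ^ (7 - i) := by
      intro k
      rw [Finset.mul_sum]
      refine Finset.sum_congr rfl fun i _ => ?_
      ring
    simp only [e1]
    rw [Finset.sum_comm]
    have e2 : ∀ i ∈ Finset.range 8, ∑ k : Fin 8, EKC_om k ^ (i + 1) * z ^ (7 - i) =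
        if i = 7 then 8 else 0 := by
      intro i hi
      rw [← Finset.sum_mul, EKC_sum i (Finset.mem_range.1 hi)]
      by_cases h : i = 7
      · subst h
        simp
      · simp [h]
    rw [Finset.sum_congr rfl e2]
    simp
  have e3 : ∀ k : Fin 8, EKC_om k / (EKC_om k - z) =
      (1 - z ^ 8)⁻¹ * (EKC_om k * ∑ i ∈ Finset.range 8, EKC_om k ^ i * z ^ (7 - i)) := by
    intro k
    have h := EKC_geom z k
    rw [← h]
    have h2 : (∑ i ∈ Finset.range 8, EKC_om k ^ i * z ^ (7 - i)) ≠ 0 := by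
      intro h0
      rw [h0, zero_mul] at h
      exact hne h.symm
    have h3 := hk k
    field_simp
  simp only [e3]
  rw [← Finset.mul_sum, h8]
  ring

theorem EKC : EKC_stmt := by
  refine ⟨EKC_one, ?_, ?_, ?_, ?_, ?_, ?_, ?_, ?_, ?_⟩
  · intro z hz
    rw [← norm_inv, EKC_one z hz, norm_mul]
    have h8 : ‖(1 / 8 : ℂ)‖ = 1 / 8 := by norm_num
    rw [h8]
    refine mul_le_mul_of_nonneg_left ?_ (by norm_num)
    refine (norm_sum_le _ _).trans ?_
    refine Finset.sum_le_sum fun k _ => ?_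
    rw [norm_div, EKC_norm, Real.rpow_neg_one, one_div]
    rfl
  · refine Set.Finite.measure_zero ?_ volume
    refine (Polynomial.nthRootsFinset 8 (1 : ℂ)).finite_toSet.subset ?_
    intro z hz
    exact (Polynomial.mem_nthRootsFinset (by norm_num) 1).2 hz
  · intro κ
    unfold Wt
    exact measurable_const.div (measurable_const.sub (measurable_id.pow_const 8)).norm
  · unfold mt
    exact ((measurable_const.sub (measurable_id.pow_const 8)).norm).pow_const _
  · unfold mt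
    exact ((continuous_const.sub (continuous_id.pow 8)).norm).rpow_const
      fun z => Or.inr (by norm_num)
  · intro κ
    unfold Wt
    have h1 : ContDiffOn ℝ ∞ (fun z : ℂ => 1 - z ^ 8) Ns := by
      apply ContDiff.contDiffOn
      exact contDiff_const.sub (contDiff_id.pow 8)
    have h2 : ∀ z ∈ Ns, (1 : ℂ) - z ^ 8 ≠ 0 := fun z hz => sub_ne_zero.2 (Ne.symm hz)
    exact contDiffOn_const.div (h1.norm ℝ h2) fun z hz => norm_ne_zero_iff.2 (h2 z hz)
  · have h : Ns = (fun z : ℂ => z ^ 8) ⁻¹' {1}ᶜ := rfl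
    rw [h]
    exact isOpen_compl_singleton.preimage (continuous_id.pow 8)
  · intro z hz ξ hξ
    have h1 : ‖z‖ ^ 2 ≤ 1 := by
      have := mem_closedBall_zero_iff.1 hz
      exact pow_le_one₀ (norm_nonneg _) this
    have h2 : ‖ξ‖ ^ 2 ≤ 1 := by
      have := mem_closedBall_zero_iff.1 hξ
      exact pow_le_one₀ (norm_nonneg _) this
    rw [Complex.sq_norm, Complex.normSq_apply] at h1 h2
    have h3 : ‖conj z - ξ‖ ^ 2 ≤ ‖1 - z * ξ‖ ^ 2 := by
      rw [Complex.sq_norm, Complex.sq_norm, Complex.normSq_apply, Complex.normSq_apply]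
      simp only [Complex.sub_re, Complex.sub_im, Complex.conj_re, Complex.conj_im, Complex.mul_re,
        Complex.mul_im, Complex.one_re, Complex.one_im]
      nlinarith [mul_nonneg (sub_nonneg.2 h1) (sub_nonneg.2 h2)]
    exact le_of_sq_le_sq h3 (norm_nonneg _)
  · intro R hR
    refine ⟨8 * (1 + R) ^ 7, by positivity, fun z hz k => ?_⟩
    have hz' : ‖z‖ ≤ R := (mem_ball_zero_iff.1 hz).le
    rw [← EKC_geom z k, norm_mul]
    refine mul_le_mul_of_nonneg_right ?_ (norm_nonneg _)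
    refine (norm_sum_le _ _).trans ?_
    have h1 : ∀ i ∈ Finset.range 8, ‖EKC_om k ^ i * z ^ (7 - i)‖ ≤ (1 + R) ^ 7 := by
      intro i hi
      rw [norm_mul, norm_pow, EKC_norm, one_pow, one_mul, norm_pow]
      calc ‖z‖ ^ (7 - i) ≤ (1 + R) ^ (7 - i) := by
            gcongr
            linarith
        _ ≤ (1 + R) ^ 7 := pow_le_pow_right₀ (by linarith) (by omega)
    refine (Finset.sum_le_sum h1).trans ?_
    rw [Finset.sum_const, Finset.card_range, nsmul_eq_mul]
    push_cast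
    exact le_rfl

end

end Pool.Agent.DL
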