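import Pool.Agent.helper22.DL.SpecE1

/-! # Project dl, module EKE: the kernels of `TB` on the disc are continuous in `L¹` -/

namespace Pool.Agent.DL

open Matrix Complex MeasureTheory Set Filter Topology
open scoped ComplexOrder Manifold ContDiff ComplexConjugate

noncomputable section

/-- the eighth roots of unity -/
def EKE_om (k : Fin 8) : ℂ := cexp (2 * Real.pi * I * ((k : ℕ) : ℂ) / 8)

theorem EKE_om8 (k : Fin 8) : EKE_om k ^ 8 = 1 := by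
  unfold EKE_om
  rw [← Complex.exp_nat_mul]
  have h : ((8 : ℕ) : ℂ) * (2 * Real.pi * I * ((k : ℕ) : ℂ) / 8) = ((k : ℕ) : ℂ) * (2 * Real.pi * I) := by
    push_cast
    ring
  rw [h, Complex.exp_nat_mul, Complex.exp_two_pi_mul_I, one_pow]

theorem EKE_m_nonneg (ξ : ℂ) : 0 ≤ (mt ξ)⁻¹ := by
  unfold mt
  exact inv_nonneg.2 (Real.rpow_nonneg (norm_nonneg _) _)

theorem EKE_m_le (hC : EKC_stmt) (ξ : ℂ) (hξ : ξ ^ 8 ≠ 1) :
    (mt ξ)⁻¹ ≤ ∑ k : Fin 8, ‖EKE_om k - ξ‖ ^ (-(1 / 4) : ℝ) := by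
  have h1 := hC.2.1 ξ hξ
  have hpos : ∀ k : Fin 8, 0 < ‖EKE_om k - ξ‖ := by
    intro k
    apply norm_pos_iff.2
    intro h
    apply hξ
    rw [← sub_eq_zero.1 h]
    exact EKE_om8 k
  obtain ⟨k, -, hk⟩ := Finset.exists_max_image (Finset.univ : Finset (Fin 8))
    (fun k => ‖EKE_om k - ξ‖ ^ (-1 : ℝ)) Finset.univ_nonempty
  have h2 : (1 / 8 : ℝ) * ∑ k : Fin 8, ‖EKE_om k - ξ‖ ^ (-1 : ℝ) ≤ ‖EKE_om k - ξ‖ ^ (-1 : ℝ) := by
    have h3 : ∑ j : Fin 8, ‖EKE_om j - ξ‖ ^ (-1 : ℝ) ≤ ∑ _j : Fin 8, ‖EKE_om k - ξ‖ ^ (-1 : ℝ) :=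
      Finset.sum_le_sum fun j _ => hk j (Finset.mem_univ j)
    rw [Finset.sum_const, Finset.card_univ, Fintype.card_fin, nsmul_eq_mul] at h3
    push_cast at h3
    linarith
  have h4 : ‖1 - ξ ^ 8‖⁻¹ ≤ ‖EKE_om k - ξ‖ ^ (-1 : ℝ) := h1.trans h2
  have h5 : (mt ξ)⁻¹ ≤ ‖EKE_om k - ξ‖ ^ (-(1 / 4) : ℝ) := by
    unfold mt
    rw [← Real.inv_rpow (norm_nonneg _)]
    refine (Real.rpow_le_rpow (inv_nonneg.2 (norm_nonneg _)) h4 (by norm_num)).trans ?_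
    rw [← Real.rpow_mul (norm_nonneg _)]
    norm_num
  refine h5.trans ?_
  exact Finset.single_le_sum (f := fun k => ‖EKE_om k - ξ‖ ^ (-(1 / 4) : ℝ))
    (fun j _ => Real.rpow_nonneg (norm_nonneg _) _) (Finset.mem_univ k)

theorem EKE_ae (hC : EKC_stmt) (a b : ℂ) (S : Set ℂ) :
    ∀ᵐ ξ ∂(volume.restrict S), ξ ^ 8 ≠ 1 ∧ ξ ≠ a ∧ ξ ≠ b := by
  refine ae_restrict_of_ae ?_
  have h1 : ∀ᵐ ξ : ℂ, ξ ^ 8 ≠ 1 := by
    have h := hC.2.2.1
    have h2 : {z : ℂ | z ^ 8 = 1}ᶜ ∈ ae (volume : Measure ℂ) := compl_mem_ae_iff.2 h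
    filter_upwards [h2] with ξ hξ
    exact hξ
  have h2 : ∀ c : ℂ, ∀ᵐ ξ : ℂ, ξ ≠ c := by
    intro c
    have h : ({c} : Set ℂ)ᶜ ∈ ae (volume : Measure ℂ) := compl_mem_ae_iff.2 (measure_singleton c)
    filter_upwards [h] with ξ hξ
    exact hξ
  filter_upwards [h1, h2 a, h2 b] with ξ e1 e2 e3
  exact ⟨e1, e2, e3⟩

theorem EKE_B (hA : EKA_stmt) (hB : EKB_stmt) (hC : EKC_stmt) (t : ℝ) (ht : 0 ≤ t)
    (ht2 : t < 7 / 4) : ∃ C : ℝ, ∀ a : ℂ,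
      IntegrableOn (fun ξ : ℂ => (mt ξ)⁻¹ * ‖a - ξ‖ ^ (-t)) Dk ∧
      ∫ ξ in Dk, (mt ξ)⁻¹ * ‖a - ξ‖ ^ (-t) ≤ C := by
  obtain ⟨C, hC0⟩ := hA (1 / 4 + t) 2 (by positivity) (by linarith) (by norm_num)
  refine ⟨16 * C, fun a => ?_⟩
  have hsub : Dk ⊆ Metric.ball (0 : ℂ) 2 := Metric.closedBall_subset_ball (by norm_num)
  set g : ℂ → ℝ := fun ξ => ∑ k : Fin 8, (‖EKE_om k - ξ‖ ^ (-(1 / 4 + t)) +
    ‖a - ξ‖ ^ (-(1 / 4 + t))) with hg
  have hgI : IntegrableOn g (Metric.ball 0 2) :=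
    integrable_finset_sum _ fun k _ => (hC0 _).1.add (hC0 a).1
  have hgi : ∫ ξ in Metric.ball (0 : ℂ) 2, g ξ ≤ 16 * C := by
    have hI0 : ∀ k ∈ (Finset.univ : Finset (Fin 8)), Integrable (fun ξ : ℂ =>
        ‖EKE_om k - ξ‖ ^ (-(1 / 4 + t)) + ‖a - ξ‖ ^ (-(1 / 4 + t)))
        (volume.restrict (Metric.ball 0 2)) := fun k _ => (hC0 _).1.add (hC0 a).1
    simp only [hg]
    rw [integral_finset_sum _ hI0]
    have h1 : ∀ k : Fin 8, ∫ ξ in Metric.ball (0 : ℂ) 2, (‖EKE_om k - ξ‖ ^ (-(1 / 4 + t)) +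
        ‖a - ξ‖ ^ (-(1 / 4 + t))) ≤ 2 * C := by
      intro k
      rw [integral_add (hC0 _).1 (hC0 a).1]
      linarith [(hC0 (EKE_om k)).2, (hC0 a).2]
    refine (Finset.sum_le_sum fun k _ => h1 k).trans ?_
    rw [Finset.sum_const, Finset.card_univ, Fintype.card_fin, nsmul_eq_mul]
    push_cast
    linarith
  have hg0 : ∀ ξ, 0 ≤ g ξ := fun ξ => Finset.sum_nonneg fun k _ =>
    add_nonneg (Real.rpow_nonneg (norm_nonneg _) _) (Real.rpow_nonneg (norm_nonneg _) _)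
  have hf0 : ∀ ξ, 0 ≤ (mt ξ)⁻¹ * ‖a - ξ‖ ^ (-t) := fun ξ =>
    mul_nonneg (EKE_m_nonneg ξ) (Real.rpow_nonneg (norm_nonneg _) _)
  have hae : ∀ᵐ ξ ∂(volume.restrict Dk), (mt ξ)⁻¹ * ‖a - ξ‖ ^ (-t) ≤ g ξ := by
    filter_upwards [EKE_ae hC a a Dk] with ξ hξ
    have hx : 0 < ‖a - ξ‖ := norm_pos_iff.2 (sub_ne_zero.2 hξ.2.1.symm)
    refine (mul_le_mul_of_nonneg_right (EKE_m_le hC ξ hξ.1)
      (Real.rpow_nonneg (norm_nonneg _) _)).trans ?_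
    rw [Finset.sum_mul]
    refine Finset.sum_le_sum fun k _ => ?_
    have hk : 0 < ‖EKE_om k - ξ‖ := by
      apply norm_pos_iff.2
      intro h
      apply hξ.1
      rw [← sub_eq_zero.1 h]
      exact EKE_om8 k
    exact hB.1 (1 / 4) t _ _ (by norm_num) ht hk hx
  have hmeas : Measurable fun ξ : ℂ => (mt ξ)⁻¹ * ‖a - ξ‖ ^ (-t) :=
    hC.2.2.2.2.1.inv.mul ((measurable_const.sub measurable_id).norm.pow_const _)
  have hgD : IntegrableOn g Dk := hgI.mono_set hsub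
  have hfI : IntegrableOn (fun ξ : ℂ => (mt ξ)⁻¹ * ‖a - ξ‖ ^ (-t)) Dk := by
    refine Integrable.mono' hgD hmeas.aestronglyMeasurable ?_
    filter_upwards [hae] with ξ hξ
    rw [Real.norm_of_nonneg (hf0 ξ)]
    exact hξ
  refine ⟨hfI, (integral_mono_ae hfI hgD hae).trans (le_trans ?_ hgi)⟩
  exact setIntegral_mono_set hgI (Eventually.of_forall fun ξ => hg0 ξ) hsub.eventuallyLE

theorem EKE_tend (F : ℂ → ℝ) (z₀ : ℂ) (C1 C2 : ℝ) (h0 : ∀ z, 0 ≤ F z)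
    (h : ∀ z ∈ Dk, F z ≤ C1 * ‖z - z₀‖ + C2 * ‖z - z₀‖ ^ (1 / 2 : ℝ)) :
    Tendsto F (𝓝[Dk] z₀) (𝓝 0) := by
  have h1 : Continuous fun z : ℂ => C1 * ‖z - z₀‖ + C2 * ‖z - z₀‖ ^ (1 / 2 : ℝ) := by
    have h2 : Continuous fun z : ℂ => ‖z - z₀‖ := by fun_prop
    exact (continuous_const.mul h2).add
      (continuous_const.mul (h2.rpow_const fun z => Or.inr (by norm_num)))
  have h3 := (h1.tendsto z₀).mono_left (nhdsWithin_le_nhds (s := Dk))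
  rw [sub_self, norm_zero, Real.zero_rpow (by norm_num), mul_zero, mul_zero, add_zero] at h3
  refine squeeze_zero' (Eventually.of_forall h0) ?_ h3
  filter_upwards [self_mem_nhdsWithin] with z hz
  exact h z hz

theorem EKE_m_norm (ξ : ℂ) : ‖((mt ξ)⁻¹ : ℂ)‖ = (mt ξ)⁻¹ := by
  rw [norm_inv, Complex.norm_real, Real.norm_of_nonneg]
  exact Real.rpow_nonneg (norm_nonneg _) _

theorem EKE_m_meas (hC : EKC_stmt) : Measurable fun ξ : ℂ => ((mt ξ)⁻¹ : ℂ) :=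
  (Complex.measurable_ofReal.comp hC.2.2.2.2.1).inv

theorem EKE_alg (z w ξ A B : ℂ) (hA : A ≠ 0) (hB : B ≠ 0) (h : B - A = (z - w) * ξ) :
    z ^ 3 / A - w ^ 3 / B = (z - w) * (z ^ 2 + z * w + w ^ 2) / A +
      w ^ 3 * ξ * ((z - w) / (A * B)) := by
  have h1 : w ^ 3 * ξ * ((z - w) / (A * B)) = w ^ 3 * ((B - A) / (A * B)) := by
    rw [h]
    ring
  rw [h1]
  field_simp
  ring

theorem EKE (hA : EKA_stmt) (hB : EKB_stmt) (hC : EKC_stmt) : EKE_stmt := by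
  obtain ⟨C1, h1⟩ := EKE_B hA hB hC 1 (by norm_num) (by norm_num)
  obtain ⟨C2, h2⟩ := EKE_B hA hB hC (3 / 2) (by norm_num) (by norm_num)
  constructor
  · constructor
    · intro z _
      refine Integrable.mono' (h1 z).1 ?_ ?_
      · exact ((EKE_m_meas hC).div (measurable_const.sub measurable_id)).aestronglyMeasurable
      · refine Eventually.of_forall fun ξ => ?_
        rw [norm_div, EKE_m_norm, Real.rpow_neg_one, div_eq_mul_inv]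
    · intro z₀ _
      refine EKE_tend _ z₀ 0 (2 * (C2 + C2)) (fun z => integral_nonneg fun ξ => norm_nonneg _) ?_
      intro z _
      set δ : ℝ := ‖z - z₀‖ with hδ
      have hδ0 : 0 ≤ δ ^ (1 / 2 : ℝ) := Real.rpow_nonneg (norm_nonneg _) _
      have hI : IntegrableOn (fun ξ : ℂ => 2 * δ ^ (1 / 2 : ℝ) *
          ((mt ξ)⁻¹ * ‖z - ξ‖ ^ (-(3 / 2) : ℝ) + (mt ξ)⁻¹ * ‖z₀ - ξ‖ ^ (-(3 / 2) : ℝ))) Dk :=
        ((h2 z).1.add (h2 z₀).1).const_mul _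
      refine (integral_mono_of_nonneg (Eventually.of_forall fun ξ => norm_nonneg _) hI ?_).trans ?_
      · filter_upwards [EKE_ae hC z z₀ Dk] with ξ hξ
        have hx : z - ξ ≠ 0 := sub_ne_zero.2 hξ.2.1.symm
        have hy : z₀ - ξ ≠ 0 := sub_ne_zero.2 hξ.2.2.symm
        have e : ((mt ξ)⁻¹ : ℂ) / (z - ξ) - ((mt ξ)⁻¹ : ℂ) / (z₀ - ξ) =
            ((mt ξ)⁻¹ : ℂ) * ((z₀ - z) / ((z - ξ) * (z₀ - ξ))) := by
          field_simp
          ring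
        rw [e, norm_mul, EKE_m_norm, norm_div, norm_mul, norm_sub_rev z₀ z, ← hδ]
        have h3 := hB.2.1 δ ‖z - ξ‖ ‖z₀ - ξ‖ (norm_pos_iff.2 hx) (norm_pos_iff.2 hy)
          (norm_nonneg _) (by
            have : z - z₀ = (z - ξ) - (z₀ - ξ) := by ring
            rw [hδ, this]
            exact norm_sub_le _ _)
        refine (mul_le_mul_of_nonneg_left h3 (EKE_m_nonneg ξ)).trans (le_of_eq ?_)
        ring
      · rw [integral_const_mul, integral_add (h2 z).1 (h2 z₀).1]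
        have h3 := (h2 z).2
        have h4 := (h2 z₀).2
        nlinarith
  · have hxy : ∀ z ∈ Dk, ∀ ξ ∈ Dk, ξ ≠ conj z → 0 < ‖conj z - ξ‖ ∧ ‖conj z - ξ‖ ≤ ‖1 - z * ξ‖ := by
      intro z hz ξ hξ hne
      exact ⟨norm_pos_iff.2 (sub_ne_zero.2 hne.symm), hC.2.2.2.2.2.2.2.2.1 z hz ξ hξ⟩
    have hn : ∀ z ∈ Dk, ‖z‖ ≤ 1 := fun z hz => mem_closedBall_zero_iff.1 hz
    have hDm : MeasurableSet Dk := measurableSet_closedBall
    constructor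
    · intro z hz
      refine Integrable.mono' (h1 (conj z)).1 ?_ ?_
      · exact ((EKE_m_meas hC).mul (measurable_const.div
          (measurable_const.sub (measurable_const.mul measurable_id)))).aestronglyMeasurable
      · filter_upwards [EKE_ae hC (conj z) (conj z) Dk, ae_restrict_mem hDm] with ξ hξ hξD
        obtain ⟨p1, p2⟩ := hxy z hz ξ hξD hξ.2.1
        rw [norm_mul, EKE_m_norm, Real.rpow_neg_one, norm_div, norm_pow]
        refine mul_le_mul_of_nonneg_left ?_ (EKE_m_nonneg ξ)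
        rw [div_eq_mul_inv]
        calc ‖z‖ ^ 3 * ‖1 - z * ξ‖⁻¹ ≤ 1 * ‖conj z - ξ‖⁻¹ := by
              refine mul_le_mul (pow_le_one₀ (norm_nonneg _) (hn z hz))
                (inv_anti₀ p1 p2) (inv_nonneg.2 (norm_nonneg _)) zero_le_one
          _ = _ := one_mul _
    · intro z₀ hz₀
      refine EKE_tend _ z₀ (3 * C1) (2 * (C2 + C2))
        (fun z => integral_nonneg fun ξ => norm_nonneg _) ?_
      intro z hz
      set δ : ℝ := ‖z - z₀‖ with hδ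
      have hδn : 0 ≤ δ := norm_nonneg _
      have hδ0 : 0 ≤ δ ^ (1 / 2 : ℝ) := Real.rpow_nonneg (norm_nonneg _) _
      have hI : IntegrableOn (fun ξ : ℂ => 3 * δ * ((mt ξ)⁻¹ * ‖conj z - ξ‖ ^ (-1 : ℝ)) +
          2 * δ ^ (1 / 2 : ℝ) * ((mt ξ)⁻¹ * ‖conj z - ξ‖ ^ (-(3 / 2) : ℝ) +
            (mt ξ)⁻¹ * ‖conj z₀ - ξ‖ ^ (-(3 / 2) : ℝ))) Dk :=
        ((h1 (conj z)).1.const_mul _).add (((h2 (conj z)).1.add (h2 (conj z₀)).1).const_mul _)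
      refine (integral_mono_of_nonneg (Eventually.of_forall fun ξ => norm_nonneg _) hI ?_).trans ?_
      · filter_upwards [EKE_ae hC (conj z) (conj z₀) Dk, ae_restrict_mem hDm] with ξ hξ hξD
        obtain ⟨p1, p2⟩ := hxy z hz ξ hξD hξ.2.1
        obtain ⟨q1, q2⟩ := hxy z₀ hz₀ ξ hξD hξ.2.2
        have hx : 1 - z * ξ ≠ 0 := norm_pos_iff.1 (p1.trans_le p2)
        have hy : 1 - z₀ * ξ ≠ 0 := norm_pos_iff.1 (q1.trans_le q2)
        have e : ((mt ξ)⁻¹ : ℂ) * (z ^ 3 / (1 - z * ξ)) - ((mt ξ)⁻¹ : ℂ) * (z₀ ^ 3 / (1 - z₀ * ξ)) =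
            ((mt ξ)⁻¹ : ℂ) * ((z - z₀) * (z ^ 2 + z * z₀ + z₀ ^ 2) / (1 - z * ξ) +
              z₀ ^ 3 * ξ * ((z - z₀) / ((1 - z * ξ) * (1 - z₀ * ξ)))) := by
          rw [← mul_sub, EKE_alg z z₀ ξ (1 - z * ξ) (1 - z₀ * ξ) hx hy (by ring)]
        rw [e, norm_mul, EKE_m_norm]
        have hz3 : ‖z ^ 2 + z * z₀ + z₀ ^ 2‖ ≤ 3 := by
          have a1 := hn z hz
          have a2 := hn z₀ hz₀
          have a3 : ‖z ^ 2‖ ≤ 1 := by
            rw [norm_pow]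
            exact pow_le_one₀ (norm_nonneg _) a1
          have a4 : ‖z₀ ^ 2‖ ≤ 1 := by
            rw [norm_pow]
            exact pow_le_one₀ (norm_nonneg _) a2
          have a5 : ‖z * z₀‖ ≤ 1 := by
            rw [norm_mul]
            exact mul_le_one₀ a1 (norm_nonneg _) a2
          calc ‖z ^ 2 + z * z₀ + z₀ ^ 2‖ ≤ ‖z ^ 2 + z * z₀‖ + ‖z₀ ^ 2‖ := norm_add_le _ _
            _ ≤ ‖z ^ 2‖ + ‖z * z₀‖ + ‖z₀ ^ 2‖ := by gcongr; exact norm_add_le _ _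
            _ ≤ 3 := by linarith
        have b1 : ‖(z - z₀) * (z ^ 2 + z * z₀ + z₀ ^ 2) / (1 - z * ξ)‖ ≤
            3 * δ * ‖conj z - ξ‖ ^ (-1 : ℝ) := by
          rw [norm_div, norm_mul, ← hδ, Real.rpow_neg_one, div_eq_mul_inv]
          refine mul_le_mul ?_ (inv_anti₀ p1 p2) (inv_nonneg.2 (norm_nonneg _)) (by positivity)
          nlinarith
        have b2 : ‖z₀ ^ 3 * ξ * ((z - z₀) / ((1 - z * ξ) * (1 - z₀ * ξ)))‖ ≤
            2 * δ ^ (1 / 2 : ℝ) * (‖conj z - ξ‖ ^ (-(3 / 2) : ℝ) +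
              ‖conj z₀ - ξ‖ ^ (-(3 / 2) : ℝ)) := by
          have h3 := hB.2.1 δ ‖conj z - ξ‖ ‖conj z₀ - ξ‖ p1 q1 (norm_nonneg _) (by
            have h4 : δ = ‖(conj z - ξ) - (conj z₀ - ξ)‖ := by
              rw [sub_sub_sub_cancel_right, ← map_sub, Complex.norm_conj, hδ]
            rw [h4]
            exact norm_sub_le _ _)
          refine le_trans ?_ h3
          rw [norm_mul, norm_div, norm_mul (1 - z * ξ), ← hδ]
          have c1 : ‖z₀ ^ 3 * ξ‖ ≤ 1 := by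
            rw [norm_mul, norm_pow]
            exact mul_le_one₀ (pow_le_one₀ (norm_nonneg _) (hn z₀ hz₀)) (norm_nonneg _) (hn ξ hξD)
          have c2 : δ / (‖1 - z * ξ‖ * ‖1 - z₀ * ξ‖) ≤ δ / (‖conj z - ξ‖ * ‖conj z₀ - ξ‖) :=
            div_le_div_of_nonneg_left hδn (mul_pos p1 q1)
              (mul_le_mul p2 q2 (norm_nonneg _) (norm_nonneg _))
          calc ‖z₀ ^ 3 * ξ‖ * (δ / (‖1 - z * ξ‖ * ‖1 - z₀ * ξ‖))
              ≤ 1 * (δ / (‖1 - z * ξ‖ * ‖1 - z₀ * ξ‖)) :=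
                mul_le_mul_of_nonneg_right c1 (by positivity)
            _ ≤ _ := by rw [one_mul]; exact c2
        calc (mt ξ)⁻¹ * ‖(z - z₀) * (z ^ 2 + z * z₀ + z₀ ^ 2) / (1 - z * ξ) +
              z₀ ^ 3 * ξ * ((z - z₀) / ((1 - z * ξ) * (1 - z₀ * ξ)))‖
            ≤ (mt ξ)⁻¹ * (3 * δ * ‖conj z - ξ‖ ^ (-1 : ℝ) +
              2 * δ ^ (1 / 2 : ℝ) * (‖conj z - ξ‖ ^ (-(3 / 2) : ℝ) +
              ‖conj z₀ - ξ‖ ^ (-(3 / 2) : ℝ))) :=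
              mul_le_mul_of_nonneg_left ((norm_add_le _ _).trans (add_le_add b1 b2))
                (EKE_m_nonneg ξ)
          _ = _ := by ring
      · have hI2 : IntegrableOn (fun ξ : ℂ =>
          2 * δ ^ (1 / 2 : ℝ) * ((mt ξ)⁻¹ * ‖conj z - ξ‖ ^ (-(3 / 2) : ℝ) +
            (mt ξ)⁻¹ * ‖conj z₀ - ξ‖ ^ (-(3 / 2) : ℝ))) Dk :=
          ((h2 (conj z)).1.add (h2 (conj z₀)).1).const_mul _
        rw [integral_add ((h1 (conj z)).1.const_mul _) hI2, integral_const_mul,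
          integral_const_mul, integral_add (h2 (conj z)).1 (h2 (conj z₀)).1]
        have h3 := (h2 (conj z)).2
        have h4 := (h2 (conj z₀)).2
        have h5 := (h1 (conj z)).2
        nlinarith

end

end Pool.Agent.DL
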