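import Pool.Agent.helper22.DL.SpecE1
import Pool.Agent.helper70.DL.EKE

/-! # Project dl, module EKG: the logarithmic kernels on the disc are continuous in `L¹` -/

namespace Pool.Agent.DL

open Matrix Complex MeasureTheory Set Filter Topology
open scoped ComplexOrder Manifold ContDiff ComplexConjugate

noncomputable section

theorem EKG_W_nonneg (ξ : ℂ) : 0 ≤ Wt 1 ξ := by
  unfold Wt
  exact div_nonneg zero_le_one (norm_nonneg _)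

theorem EKG_B (hA : EKA_stmt) (hB : EKB_stmt) (hC : EKC_stmt) (t : ℝ) (ht : 0 ≤ t)
    (ht2 : t < 1) : ∃ C : ℝ, ∀ a : ℂ,
      IntegrableOn (fun ξ : ℂ => Wt 1 ξ * ‖a - ξ‖ ^ (-t)) Dk ∧
      ∫ ξ in Dk, Wt 1 ξ * ‖a - ξ‖ ^ (-t) ≤ C := by
  obtain ⟨C, hC0⟩ := hA (1 + t) 2 (by positivity) (by linarith) (by norm_num)
  refine ⟨16 * C, fun a => ?_⟩
  have hsub : Dk ⊆ Metric.ball (0 : ℂ) 2 := Metric.closedBall_subset_ball (by norm_num)
  set g : ℂ → ℝ := fun ξ => ∑ k : Fin 8, (‖EKE_om k - ξ‖ ^ (-(1 + t)) +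
    ‖a - ξ‖ ^ (-(1 + t))) with hg
  have hI0 : ∀ k ∈ (Finset.univ : Finset (Fin 8)), Integrable (fun ξ : ℂ =>
      ‖EKE_om k - ξ‖ ^ (-(1 + t)) + ‖a - ξ‖ ^ (-(1 + t)))
      (volume.restrict (Metric.ball 0 2)) := fun k _ => (hC0 _).1.add (hC0 a).1
  have hgI : IntegrableOn g (Metric.ball 0 2) := integrable_finsetSum _ hI0
  have hgi : ∫ ξ in Metric.ball (0 : ℂ) 2, g ξ ≤ 16 * C := by
    simp only [hg]
    rw [integral_finsetSum _ hI0]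
    have h1 : ∀ k : Fin 8, ∫ ξ in Metric.ball (0 : ℂ) 2, (‖EKE_om k - ξ‖ ^ (-(1 + t)) +
        ‖a - ξ‖ ^ (-(1 + t))) ≤ 2 * C := by
      intro k
      rw [integral_add (hC0 _).1 (hC0 a).1]
      linarith [(hC0 (EKE_om k)).2, (hC0 a).2]
    refine (Finset.sum_le_sum fun k _ => h1 k).trans ?_
    rw [Finset.sum_const, Finset.card_univ, Fintype.card_fin, nsmul_eq_mul]
    push_cast
    linarith
  have hg0 : ∀ ξ, 0 ≤ g ξ := fun ξ => Finset.sum_nonneg fun k _ =>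
    add_nonneg (Real.rpow_nonneg (norm_nonneg _) _) (Real.rpow_nonneg (norm_nonneg _) _)
  have hf0 : ∀ ξ, 0 ≤ Wt 1 ξ * ‖a - ξ‖ ^ (-t) := fun ξ =>
    mul_nonneg (EKG_W_nonneg ξ) (Real.rpow_nonneg (norm_nonneg _) _)
  have hae : ∀ᵐ ξ ∂(volume.restrict Dk), Wt 1 ξ * ‖a - ξ‖ ^ (-t) ≤ g ξ := by
    filter_upwards [EKE_ae hC a a Dk] with ξ hξ
    have hx : 0 < ‖a - ξ‖ := norm_pos_iff.2 (sub_ne_zero.2 hξ.2.1.symm)
    have hW : Wt 1 ξ ≤ ∑ k : Fin 8, ‖EKE_om k - ξ‖ ^ (-1 : ℝ) := by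
      have h1 := hC.2.1 ξ hξ.1
      have h2 : 0 ≤ ∑ k : Fin 8, ‖EKE_om k - ξ‖ ^ (-1 : ℝ) :=
        Finset.sum_nonneg fun k _ => Real.rpow_nonneg (norm_nonneg _) _
      unfold Wt
      rw [one_div]
      refine h1.trans ?_
      change (1 / 8 : ℝ) * ∑ k : Fin 8, ‖EKE_om k - ξ‖ ^ (-1 : ℝ) ≤ _
      linarith
    refine (mul_le_mul_of_nonneg_right hW (Real.rpow_nonneg (norm_nonneg _) _)).trans ?_
    rw [Finset.sum_mul]
    refine Finset.sum_le_sum fun k _ => ?_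
    have hk : 0 < ‖EKE_om k - ξ‖ := by
      apply norm_pos_iff.2
      intro h
      apply hξ.1
      rw [← sub_eq_zero.1 h]
      exact EKE_om8 k
    exact hB.1 1 t _ _ (by norm_num) ht hk hx
  have hmeas : Measurable fun ξ : ℂ => Wt 1 ξ * ‖a - ξ‖ ^ (-t) :=
    (hC.2.2.2.1 1).mul ((measurable_const.sub measurable_id).norm.pow_const _)
  have hgD : IntegrableOn g Dk := hgI.mono_set hsub
  have hfI : IntegrableOn (fun ξ : ℂ => Wt 1 ξ * ‖a - ξ‖ ^ (-t)) Dk := by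
    refine Integrable.mono' hgD hmeas.aestronglyMeasurable ?_
    filter_upwards [hae] with ξ hξ
    rw [Real.norm_of_nonneg (hf0 ξ)]
    exact hξ
  refine ⟨hfI, (integral_mono_ae hfI hgD hae).trans (le_trans ?_ hgi)⟩
  exact setIntegral_mono_set hgI (Eventually.of_forall fun ξ => hg0 ξ) hsub.eventuallyLE

theorem EKG_tend (F : ℂ → ℝ) (z₀ : ℂ) (C : ℝ) (h0 : ∀ z, 0 ≤ F z)
    (h : ∀ z ∈ Dk, F z ≤ C * ‖z - z₀‖ ^ (1 / 4 : ℝ)) :
    Tendsto F (𝓝[Dk] z₀) (𝓝 0) := by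
  have h1 : Continuous fun z : ℂ => C * ‖z - z₀‖ ^ (1 / 4 : ℝ) := by
    have h2 : Continuous fun z : ℂ => ‖z - z₀‖ := by fun_prop
    exact continuous_const.mul (h2.rpow_const fun z => Or.inr (by norm_num))
  have h3 := (h1.tendsto z₀).mono_left (nhdsWithin_le_nhds (s := Dk))
  rw [sub_self, norm_zero, Real.zero_rpow (by norm_num), mul_zero] at h3
  refine squeeze_zero' (Eventually.of_forall h0) ?_ h3
  filter_upwards [self_mem_nhdsWithin] with z hz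
  exact h z hz

theorem EKG_log (hB : EKB_stmt) (x : ℝ) (hx : 0 < x) (hx2 : x ≤ 2) :
    |Real.log x| ≤ 8 * (x ^ (-(1 / 4) : ℝ) + 1) := by
  have h := hB.2.2.1 x 1 hx one_pos
  rw [Real.log_one, sub_zero, Real.one_rpow] at h
  have h1 : |x - 1| ^ (1 / 4 : ℝ) ≤ 1 := by
    refine Real.rpow_le_one (abs_nonneg _) ?_ (by norm_num)
    rw [abs_le]
    constructor <;> linarith
  have h2 : 0 ≤ x ^ (-(1 / 4) : ℝ) := Real.rpow_nonneg hx.le _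
  refine h.trans ?_
  nlinarith

theorem EKG_gen (hA : EKA_stmt) (hB : EKB_stmt) (hC : EKC_stmt) (q : ℂ → ℂ → ℝ) (r : ℂ → ℂ)
    (hm : ∀ z, Measurable (q z)) (q1 : ∀ z ∈ Dk, ∀ ξ ∈ Dk, ‖r z - ξ‖ ≤ q z ξ)
    (q2 : ∀ z ∈ Dk, ∀ ξ ∈ Dk, q z ξ ≤ 2)
    (q3 : ∀ z ∈ Dk, ∀ z₀ ∈ Dk, ∀ ξ ∈ Dk, |q z ξ - q z₀ ξ| ≤ ‖z - z₀‖) :
    GK (fun z ξ : ℂ => Wt 1 ξ * Real.log (q z ξ)) := by
  obtain ⟨C0, h0⟩ := EKG_B hA hB hC 0 le_rfl (by norm_num)
  obtain ⟨C1, h1⟩ := EKG_B hA hB hC (1 / 4) (by norm_num) (by norm_num)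
  have hDm : MeasurableSet Dk := measurableSet_closedBall
  have hq : ∀ z ∈ Dk, ∀ ξ ∈ Dk, ξ ≠ r z → 0 < ‖r z - ξ‖ ∧ 0 < q z ξ ∧
      q z ξ ^ (-(1 / 4) : ℝ) ≤ ‖r z - ξ‖ ^ (-(1 / 4) : ℝ) := by
    intro z hz ξ hξ hne
    have p1 : 0 < ‖r z - ξ‖ := norm_pos_iff.2 (sub_ne_zero.2 hne.symm)
    have p2 := q1 z hz ξ hξ
    exact ⟨p1, p1.trans_le p2, Real.rpow_le_rpow_of_nonpos p1 p2 (by norm_num)⟩
  constructor
  · intro z hz
    have hI : IntegrableOn (fun ξ : ℂ => 8 * (Wt 1 ξ * ‖r z - ξ‖ ^ (-(1 / 4) : ℝ) +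
        Wt 1 ξ * ‖r z - ξ‖ ^ (-(0 : ℝ)))) Dk :=
      ((h1 (r z)).1.add (h0 (r z)).1).const_mul _
    refine Integrable.mono' hI ?_ ?_
    · exact ((hC.2.2.2.1 1).mul (Real.measurable_log.comp (hm z))).aestronglyMeasurable
    · filter_upwards [EKE_ae hC (r z) (r z) Dk, ae_restrict_mem hDm] with ξ hξ hξD
      obtain ⟨p1, p2, p3⟩ := hq z hz ξ hξD hξ.2.1
      rw [norm_mul, Real.norm_of_nonneg (EKG_W_nonneg ξ), Real.norm_eq_abs, neg_zero,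
        Real.rpow_zero]
      have h2 := EKG_log hB (q z ξ) p2 (q2 z hz ξ hξD)
      have h3 := EKG_W_nonneg ξ
      calc Wt 1 ξ * |Real.log (q z ξ)| ≤ Wt 1 ξ * (8 * (‖r z - ξ‖ ^ (-(1 / 4) : ℝ) + 1)) := by
            refine mul_le_mul_of_nonneg_left (h2.trans ?_) h3
            linarith
        _ = _ := by ring
  · intro z₀ hz₀
    refine EKG_tend _ z₀ (4 * (C1 + C1)) (fun z => integral_nonneg fun ξ => norm_nonneg _) ?_
    intro z hz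
    set δ : ℝ := ‖z - z₀‖ with hδ
    have hδn : 0 ≤ δ := norm_nonneg _
    have hδ0 : 0 ≤ δ ^ (1 / 4 : ℝ) := Real.rpow_nonneg (norm_nonneg _) _
    have hI : IntegrableOn (fun ξ : ℂ => 4 * δ ^ (1 / 4 : ℝ) *
        (Wt 1 ξ * ‖r z - ξ‖ ^ (-(1 / 4) : ℝ) + Wt 1 ξ * ‖r z₀ - ξ‖ ^ (-(1 / 4) : ℝ))) Dk :=
      ((h1 (r z)).1.add (h1 (r z₀)).1).const_mul _
    refine (integral_mono_of_nonneg (Eventually.of_forall fun ξ => norm_nonneg _) hI ?_).trans ?_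
    · filter_upwards [EKE_ae hC (r z) (r z₀) Dk, ae_restrict_mem hDm] with ξ hξ hξD
      obtain ⟨p1, p2, p3⟩ := hq z hz ξ hξD hξ.2.1
      obtain ⟨r1, r2, r3⟩ := hq z₀ hz₀ ξ hξD hξ.2.2
      rw [← mul_sub, norm_mul, Real.norm_of_nonneg (EKG_W_nonneg ξ), Real.norm_eq_abs]
      have h2 := hB.2.2.1 (q z ξ) (q z₀ ξ) p2 r2
      have h3 := EKG_W_nonneg ξ
      have h4 : |q z ξ - q z₀ ξ| ^ (1 / 4 : ℝ) ≤ δ ^ (1 / 4 : ℝ) :=
        Real.rpow_le_rpow (abs_nonneg _) (q3 z hz z₀ hz₀ ξ hξD) (by norm_num)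
      have h5 : 0 ≤ |q z ξ - q z₀ ξ| ^ (1 / 4 : ℝ) := Real.rpow_nonneg (abs_nonneg _) _
      have h6 : 0 ≤ q z ξ ^ (-(1 / 4) : ℝ) := Real.rpow_nonneg p2.le _
      have h7 : 0 ≤ q z₀ ξ ^ (-(1 / 4) : ℝ) := Real.rpow_nonneg r2.le _
      calc Wt 1 ξ * |Real.log (q z ξ) - Real.log (q z₀ ξ)|
          ≤ Wt 1 ξ * (4 * δ ^ (1 / 4 : ℝ) *
            (‖r z - ξ‖ ^ (-(1 / 4) : ℝ) + ‖r z₀ - ξ‖ ^ (-(1 / 4) : ℝ))) := by
            refine mul_le_mul_of_nonneg_left (h2.trans ?_) h3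
            refine mul_le_mul (by linarith) (add_le_add p3 r3) (by linarith) (by positivity)
        _ = _ := by ring
    · rw [integral_const_mul, integral_add (h1 (r z)).1 (h1 (r z₀)).1]
      have h3 := (h1 (r z)).2
      have h4 := (h1 (r z₀)).2
      nlinarith

theorem EKG (hA : EKA_stmt) (hB : EKB_stmt) (hC : EKC_stmt) : EKG_stmt := by
  have hn : ∀ z ∈ Dk, ‖z‖ ≤ 1 := fun z hz => mem_closedBall_zero_iff.1 hz
  constructor
  · refine EKG_gen hA hB hC (fun z ξ => ‖z - ξ‖) (fun z => z)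
      (fun z => (measurable_const.sub measurable_id).norm) (fun z _ ξ _ => le_rfl) ?_ ?_
    · intro z hz ξ hξ
      have := norm_sub_le z ξ
      have := hn z hz
      have := hn ξ hξ
      linarith
    · intro z hz z₀ hz₀ ξ hξ
      have h := abs_norm_sub_norm_le (z - ξ) (z₀ - ξ)
      rwa [sub_sub_sub_cancel_right] at h
  · refine EKG_gen hA hB hC (fun z ξ => ‖1 - z * ξ‖) (fun z => conj z)
      (fun z => (measurable_const.sub (measurable_const.mul measurable_id)).norm)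
      (fun z hz ξ hξ => hC.2.2.2.2.2.2.2.2.1 z hz ξ hξ) ?_ ?_
    · intro z hz ξ hξ
      have h1 := norm_sub_le 1 (z * ξ)
      have h2 : ‖z * ξ‖ ≤ 1 := by
        rw [norm_mul]
        exact mul_le_one₀ (hn z hz) (norm_nonneg _) (hn ξ hξ)
      rw [norm_one] at h1
      linarith
    · intro z hz z₀ hz₀ ξ hξ
      have h := abs_norm_sub_norm_le (1 - z * ξ) (1 - z₀ * ξ)
      refine h.trans ?_
      have e : 1 - z * ξ - (1 - z₀ * ξ) = (z₀ - z) * ξ := by ring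
      rw [e, norm_mul, norm_sub_rev z z₀]
      exact mul_le_of_le_one_right (norm_nonneg _) (hn ξ hξ)

end

end Pool.Agent.DL
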