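import Pool.Agent.helper22.DL.SpecE1
import Pool.Agent.helper70.DL.EKG

/-! # Project dl, module EKD: the basic kernel estimates -/

namespace Pool.Agent.DL

open Matrix Complex MeasureTheory Set Filter Topology
open scoped ComplexOrder Manifold ContDiff ComplexConjugate

noncomputable section

theorem EKD_om_pos (ξ : ℂ) (hξ : ξ ^ 8 ≠ 1) (k : Fin 8) : 0 < ‖EKE_om k - ξ‖ := by
  apply norm_pos_iff.2
  intro h
  apply hξ
  rw [← sub_eq_zero.1 h]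
  exact EKE_om8 k

theorem EKD_gen (hA : EKA_stmt) (hB : EKB_stmt) (hC : EKC_stmt) (R : ℝ) (hR : 0 < R)
    (p : ℂ → ℝ) (hp : Measurable p) (hp0 : ∀ ξ, 0 ≤ p ξ) (s : ℝ) (hs : 0 ≤ s)
    (hle : ∀ ξ, ξ ^ 8 ≠ 1 → p ξ ≤ ∑ k : Fin 8, ‖EKE_om k - ξ‖ ^ (-s)) (t : ℝ) (ht : 0 ≤ t)
    (hst : s + t < 2) : ∃ C : ℝ, ∀ a : ℂ,
      IntegrableOn (fun ξ : ℂ => p ξ * ‖a - ξ‖ ^ (-t)) (Metric.ball 0 R) ∧
      ∫ ξ in Metric.ball (0 : ℂ) R, p ξ * ‖a - ξ‖ ^ (-t) ≤ C := by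
  obtain ⟨C, hC0⟩ := hA (s + t) R (by positivity) hst hR
  refine ⟨16 * C, fun a => ?_⟩
  set g : ℂ → ℝ := fun ξ => ∑ k : Fin 8, (‖EKE_om k - ξ‖ ^ (-(s + t)) +
    ‖a - ξ‖ ^ (-(s + t))) with hg
  have hI0 : ∀ k ∈ (Finset.univ : Finset (Fin 8)), Integrable (fun ξ : ℂ =>
      ‖EKE_om k - ξ‖ ^ (-(s + t)) + ‖a - ξ‖ ^ (-(s + t)))
      (volume.restrict (Metric.ball 0 R)) := fun k _ => (hC0 _).1.add (hC0 a).1
  have hgI : IntegrableOn g (Metric.ball 0 R) := integrable_finsetSum _ hI0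
  have hgi : ∫ ξ in Metric.ball (0 : ℂ) R, g ξ ≤ 16 * C := by
    simp only [hg]
    rw [integral_finsetSum _ hI0]
    have h1 : ∀ k : Fin 8, ∫ ξ in Metric.ball (0 : ℂ) R, (‖EKE_om k - ξ‖ ^ (-(s + t)) +
        ‖a - ξ‖ ^ (-(s + t))) ≤ 2 * C := by
      intro k
      rw [integral_add (hC0 _).1 (hC0 a).1]
      linarith [(hC0 (EKE_om k)).2, (hC0 a).2]
    refine (Finset.sum_le_sum fun k _ => h1 k).trans ?_
    rw [Finset.sum_const, Finset.card_univ, Fintype.card_fin, nsmul_eq_mul]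
    push_cast
    linarith
  have hf0 : ∀ ξ, 0 ≤ p ξ * ‖a - ξ‖ ^ (-t) := fun ξ =>
    mul_nonneg (hp0 ξ) (Real.rpow_nonneg (norm_nonneg _) _)
  have hae : ∀ᵐ ξ ∂(volume.restrict (Metric.ball (0 : ℂ) R)), p ξ * ‖a - ξ‖ ^ (-t) ≤ g ξ := by
    filter_upwards [EKE_ae hC a a (Metric.ball (0 : ℂ) R)] with ξ hξ
    have hx : 0 < ‖a - ξ‖ := norm_pos_iff.2 (sub_ne_zero.2 hξ.2.1.symm)
    refine (mul_le_mul_of_nonneg_right (hle ξ hξ.1)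
      (Real.rpow_nonneg (norm_nonneg _) _)).trans ?_
    rw [Finset.sum_mul]
    exact Finset.sum_le_sum fun k _ => hB.1 s t _ _ hs ht (EKD_om_pos ξ hξ.1 k) hx
  have hmeas : Measurable fun ξ : ℂ => p ξ * ‖a - ξ‖ ^ (-t) :=
    hp.mul ((measurable_const.sub measurable_id).norm.pow_const _)
  have hfI : IntegrableOn (fun ξ : ℂ => p ξ * ‖a - ξ‖ ^ (-t)) (Metric.ball 0 R) := by
    refine Integrable.mono' hgI hmeas.aestronglyMeasurable ?_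
    filter_upwards [hae] with ξ hξ
    rw [Real.norm_of_nonneg (hf0 ξ)]
    exact hξ
  exact ⟨hfI, (integral_mono_ae hfI hgI hae).trans hgi⟩

theorem EKD_W8 (hC : EKC_stmt) (ξ : ℂ) (hξ : ξ ^ 8 ≠ 1) :
    Wt 1 ξ ≤ (1 / 8) * ∑ k : Fin 8, ‖EKE_om k - ξ‖ ^ (-1 : ℝ) := by
  have h1 := hC.2.1 ξ hξ
  unfold Wt
  rw [one_div]
  exact h1

theorem EKD_W (hC : EKC_stmt) (ξ : ℂ) (hξ : ξ ^ 8 ≠ 1) :
    Wt 1 ξ ≤ ∑ k : Fin 8, ‖EKE_om k - ξ‖ ^ (-1 : ℝ) := by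
  have h1 := EKD_W8 hC ξ hξ
  have h2 : 0 ≤ ∑ k : Fin 8, ‖EKE_om k - ξ‖ ^ (-1 : ℝ) :=
    Finset.sum_nonneg fun k _ => Real.rpow_nonneg (norm_nonneg _) _
  linarith

/-- the first estimate -/
theorem EKD_one (hA : EKA_stmt) (hB : EKB_stmt) (hC : EKC_stmt) (R : ℝ) (hR : 0 < R) :
    ∃ C : ℝ, 0 ≤ C ∧ ∀ z ∈ Metric.ball (0 : ℂ) R, z ^ 8 ≠ 1 →
      IntegrableOn (fun ξ : ℂ => Wt 1 ξ * ‖z - ξ‖⁻¹) (Metric.ball 0 R) ∧
      ∫ ξ in Metric.ball (0 : ℂ) R, Wt 1 ξ * ‖z - ξ‖⁻¹ ≤ C * ‖1 - z ^ 8‖ ^ (-(1 / 8) : ℝ) := by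
  obtain ⟨K, hK⟩ := hA (15 / 8) R (by norm_num) (by norm_num) hR
  obtain ⟨D, hD0, hD⟩ := hC.2.2.2.2.2.2.2.2.2 R hR
  have hK0 : 0 ≤ K := (integral_nonneg fun ξ => Real.rpow_nonneg (norm_nonneg _) _).trans (hK 0).2
  refine ⟨4 * K * D ^ (1 / 8 : ℝ), by positivity, fun z hz hz8 => ?_⟩
  have hN : 0 < ‖1 - z ^ 8‖ := norm_pos_iff.2 (sub_ne_zero.2 hz8.symm)
  set Q : ℝ := D ^ (1 / 8 : ℝ) * ‖1 - z ^ 8‖ ^ (-(1 / 8) : ℝ) with hQ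
  have hQ0 : 0 ≤ Q := by positivity
  have hd : ∀ k : Fin 8, ‖EKE_om k - z‖ ^ (-(1 / 8) : ℝ) ≤ Q := by
    intro k
    have h1 := hD z hz k
    have h2 : ‖1 - z ^ 8‖ / D ≤ ‖EKE_om k - z‖ := by
      rw [div_le_iff₀ hD0, mul_comm]
      exact h1
    have h3 : ‖EKE_om k - z‖ ^ (-(1 / 8) : ℝ) ≤ (‖1 - z ^ 8‖ / D) ^ (-(1 / 8) : ℝ) :=
      Real.rpow_le_rpow_of_nonpos (div_pos hN hD0) h2 (by norm_num)
    refine h3.trans (le_of_eq ?_)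
    rw [Real.div_rpow hN.le hD0.le, Real.rpow_neg hD0.le, div_inv_eq_mul, hQ, mul_comm]
  set g : ℂ → ℝ := fun ξ => ∑ k : Fin 8, (1 / 4 * Q) * (‖EKE_om k - ξ‖ ^ (-(15 / 8) : ℝ) +
    ‖z - ξ‖ ^ (-(15 / 8) : ℝ)) with hg
  have hI0 : ∀ k ∈ (Finset.univ : Finset (Fin 8)), Integrable (fun ξ : ℂ =>
      (1 / 4 * Q) * (‖EKE_om k - ξ‖ ^ (-(15 / 8) : ℝ) + ‖z - ξ‖ ^ (-(15 / 8) : ℝ)))
      (volume.restrict (Metric.ball 0 R)) := fun k _ => ((hK _).1.add (hK z).1).const_mul _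
  have hgI : IntegrableOn g (Metric.ball 0 R) := integrable_finsetSum _ hI0
  have hgi : ∫ ξ in Metric.ball (0 : ℂ) R, g ξ ≤ 4 * K * Q := by
    simp only [hg]
    rw [integral_finsetSum _ hI0]
    have h1 : ∀ k : Fin 8, ∫ ξ in Metric.ball (0 : ℂ) R, (1 / 4 * Q) *
        (‖EKE_om k - ξ‖ ^ (-(15 / 8) : ℝ) + ‖z - ξ‖ ^ (-(15 / 8) : ℝ)) ≤ 1 / 2 * K * Q := by
      intro k
      rw [integral_const_mul, integral_add (hK _).1 (hK z).1]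
      have h2 := (hK (EKE_om k)).2
      have h3 := (hK z).2
      nlinarith
    refine (Finset.sum_le_sum fun k _ => h1 k).trans ?_
    rw [Finset.sum_const, Finset.card_univ, Fintype.card_fin, nsmul_eq_mul]
    push_cast
    linarith
  have hf0 : ∀ ξ, 0 ≤ Wt 1 ξ * ‖z - ξ‖⁻¹ := fun ξ =>
    mul_nonneg (EKG_W_nonneg ξ) (inv_nonneg.2 (norm_nonneg _))
  have hae : ∀ᵐ ξ ∂(volume.restrict (Metric.ball (0 : ℂ) R)), Wt 1 ξ * ‖z - ξ‖⁻¹ ≤ g ξ := by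
    filter_upwards [EKE_ae hC z z (Metric.ball (0 : ℂ) R)] with ξ hξ
    have hx : 0 < ‖z - ξ‖ := norm_pos_iff.2 (sub_ne_zero.2 hξ.2.1.symm)
    refine (mul_le_mul_of_nonneg_right (EKD_W8 hC ξ hξ.1)
      (inv_nonneg.2 (norm_nonneg _))).trans ?_
    rw [Finset.mul_sum, Finset.sum_mul]
    refine Finset.sum_le_sum fun k _ => ?_
    have hk := EKD_om_pos ξ hξ.1 k
    have hkz := EKD_om_pos z hz8 k
    have h1 := hB.2.2.2 ‖EKE_om k - z‖ ‖EKE_om k - ξ‖ ‖z - ξ‖ hk hx hkz (by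
      have e : EKE_om k - z = (EKE_om k - ξ) - (z - ξ) := by ring
      rw [e]
      exact norm_sub_le _ _)
    have h2 : 0 ≤ ‖EKE_om k - ξ‖ ^ (-(15 / 8) : ℝ) + ‖z - ξ‖ ^ (-(15 / 8) : ℝ) :=
      add_nonneg (Real.rpow_nonneg (norm_nonneg _) _) (Real.rpow_nonneg (norm_nonneg _) _)
    have h3 : ‖EKE_om k - ξ‖ ^ (-1 : ℝ) * ‖z - ξ‖⁻¹ = 1 / (‖EKE_om k - ξ‖ * ‖z - ξ‖) := by
      rw [Real.rpow_neg_one, one_div, mul_inv]
    have h4 : 1 / (‖EKE_om k - ξ‖ * ‖z - ξ‖) ≤ 2 * Q * (‖EKE_om k - ξ‖ ^ (-(15 / 8) : ℝ) +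
        ‖z - ξ‖ ^ (-(15 / 8) : ℝ)) :=
      h1.trans (mul_le_mul_of_nonneg_right (by linarith [hd k]) h2)
    calc 1 / 8 * ‖EKE_om k - ξ‖ ^ (-1 : ℝ) * ‖z - ξ‖⁻¹
        = 1 / 8 * (1 / (‖EKE_om k - ξ‖ * ‖z - ξ‖)) := by rw [mul_assoc, h3]
      _ ≤ 1 / 8 * (2 * Q * (‖EKE_om k - ξ‖ ^ (-(15 / 8) : ℝ) + ‖z - ξ‖ ^ (-(15 / 8) : ℝ))) :=
          mul_le_mul_of_nonneg_left h4 (by norm_num)
      _ = _ := by ring
  have hmeas : Measurable fun ξ : ℂ => Wt 1 ξ * ‖z - ξ‖⁻¹ :=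
    (hC.2.2.2.1 1).mul (measurable_const.sub measurable_id).norm.inv
  have hfI : IntegrableOn (fun ξ : ℂ => Wt 1 ξ * ‖z - ξ‖⁻¹) (Metric.ball 0 R) := by
    refine Integrable.mono' hgI hmeas.aestronglyMeasurable ?_
    filter_upwards [hae] with ξ hξ
    rw [Real.norm_of_nonneg (hf0 ξ)]
    exact hξ
  refine ⟨hfI, (integral_mono_ae hfI hgI hae).trans (hgi.trans (le_of_eq ?_))⟩
  rw [hQ]
  ring

theorem EKD (hA : EKA_stmt) (hB : EKB_stmt) (hC : EKC_stmt) : EKD_stmt := by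
  intro R hR
  obtain ⟨C1, hC1, h1⟩ := EKD_one hA hB hC R hR
  obtain ⟨C2, h2⟩ := EKD_gen hA hB hC R hR (fun ξ => (mt ξ)⁻¹) hC.2.2.2.2.1.inv EKE_m_nonneg
    (1 / 4) (by norm_num) (EKE_m_le hC) 1 (by norm_num) (by norm_num)
  obtain ⟨C3, h3⟩ := EKD_gen hA hB hC R hR (fun ξ => (mt ξ)⁻¹) hC.2.2.2.2.1.inv EKE_m_nonneg
    (1 / 4) (by norm_num) (EKE_m_le hC) 0 (by norm_num) (by norm_num)
  obtain ⟨C4, h4⟩ := EKD_gen hA hB hC R hR (Wt 1) (hC.2.2.2.1 1) EKG_W_nonneg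
    1 (by norm_num) (EKD_W hC) 0 (by norm_num) (by norm_num)
  obtain ⟨C5, h5⟩ := EKD_gen hA hB hC R hR (Wt 1) (hC.2.2.2.1 1) EKG_W_nonneg
    1 (by norm_num) (EKD_W hC) (1 / 4) (by norm_num) (by norm_num)
  set c : ℝ := 4 * (2 * R + 1) ^ (1 / 4 : ℝ) with hc
  have hc0 : 0 ≤ c := by positivity
  set B : ℝ := (1 + R ^ 8) ^ (1 / 8 : ℝ) with hB'
  have hB0 : 0 ≤ B := by positivity
  refine ⟨1 + C1 + C1 * B + |C2| + c * (|C5| + |C4|), by positivity, ?_, ?_, ⟨?_, ?_⟩, ?_⟩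
  · intro z hz hz8
    obtain ⟨a1, a2⟩ := h1 z hz hz8
    have hN : 0 < ‖1 - z ^ 8‖ := norm_pos_iff.2 (sub_ne_zero.2 hz8.symm)
    have hN8 : 0 ≤ ‖1 - z ^ 8‖ ^ (-(1 / 8) : ℝ) := Real.rpow_nonneg hN.le _
    have hrest : 0 ≤ |C2| + c * (|C5| + |C4|) := by positivity
    refine ⟨a1, ?_, ?_⟩
    · have hm : ‖1 - z ^ 8‖ ^ (-(1 / 8) : ℝ) ≤ B * (mt z)⁻¹ := by
        have e1 : (mt z)⁻¹ = ‖1 - z ^ 8‖ ^ (-(1 / 4) : ℝ) := by
          unfold mt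
          rw [Real.rpow_neg hN.le]
        have e2 : ‖1 - z ^ 8‖ ^ (-(1 / 8) : ℝ) =
            ‖1 - z ^ 8‖ ^ (1 / 8 : ℝ) * ‖1 - z ^ 8‖ ^ (-(1 / 4) : ℝ) := by
          rw [← Real.rpow_add hN]
          norm_num
        rw [e1, e2]
        refine mul_le_mul_of_nonneg_right ?_ (Real.rpow_nonneg hN.le _)
        refine Real.rpow_le_rpow hN.le ?_ (by norm_num)
        have hz' : ‖z‖ ≤ R := (mem_ball_zero_iff.1 hz).le
        calc ‖1 - z ^ 8‖ ≤ ‖(1 : ℂ)‖ + ‖z ^ 8‖ := norm_sub_le _ _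
          _ ≤ 1 + R ^ 8 := by
            rw [norm_one, norm_pow]
            gcongr
      refine a2.trans ?_
      have hm0 := EKE_m_nonneg z
      calc C1 * ‖1 - z ^ 8‖ ^ (-(1 / 8) : ℝ) ≤ C1 * (B * (mt z)⁻¹) :=
            mul_le_mul_of_nonneg_left hm hC1
        _ = (C1 * B) * (mt z)⁻¹ := by ring
        _ ≤ _ := mul_le_mul_of_nonneg_right (by linarith) hm0
    · refine a2.trans (mul_le_mul_of_nonneg_right ?_ hN8)
      have : 0 ≤ C1 * B := mul_nonneg hC1 hB0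
      linarith
  · intro z
    have e : (fun ξ : ℂ => (mt ξ)⁻¹ * ‖z - ξ‖⁻¹) = fun ξ : ℂ => (mt ξ)⁻¹ * ‖z - ξ‖ ^ (-1 : ℝ) := by
      funext ξ
      rw [Real.rpow_neg_one]
    rw [e]
    refine ⟨(h2 z).1, (h2 z).2.trans ?_⟩
    have : 0 ≤ C1 * B := mul_nonneg hC1 hB0
    have : 0 ≤ c * (|C5| + |C4|) := by positivity
    have := le_abs_self C2
    linarith
  · have h := (h4 0).1
    simp only [neg_zero, Real.rpow_zero, mul_one] at h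
    exact h
  · have h := (h3 0).1
    simp only [neg_zero, Real.rpow_zero, mul_one] at h
    exact h
  · intro z hz
    have hzR : ‖z‖ < R := mem_ball_zero_iff.1 hz
    have hI : IntegrableOn (fun ξ : ℂ => c * (Wt 1 ξ * ‖z - ξ‖ ^ (-(1 / 4) : ℝ) +
        Wt 1 ξ * ‖z - ξ‖ ^ (-(0 : ℝ)))) (Metric.ball 0 R) :=
      ((h5 z).1.add (h4 z).1).const_mul _
    have hae : ∀ᵐ ξ ∂(volume.restrict (Metric.ball (0 : ℂ) R)),
        Wt 1 ξ * |Real.log ‖z - ξ‖| ≤ c * (Wt 1 ξ * ‖z - ξ‖ ^ (-(1 / 4) : ℝ) +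
        Wt 1 ξ * ‖z - ξ‖ ^ (-(0 : ℝ))) := by
      filter_upwards [EKE_ae hC z z (Metric.ball (0 : ℂ) R),
        ae_restrict_mem measurableSet_ball] with ξ hξ hξR
      have hx : 0 < ‖z - ξ‖ := norm_pos_iff.2 (sub_ne_zero.2 hξ.2.1.symm)
      have hξR' : ‖ξ‖ < R := mem_ball_zero_iff.1 hξR
      have h := hB.2.2.1 ‖z - ξ‖ 1 hx one_pos
      rw [Real.log_one, sub_zero, Real.one_rpow] at h
      have h6 : |‖z - ξ‖ - 1| ^ (1 / 4 : ℝ) ≤ (2 * R + 1) ^ (1 / 4 : ℝ) := by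
        refine Real.rpow_le_rpow (abs_nonneg _) ?_ (by norm_num)
        have := norm_sub_le z ξ
        rw [abs_le]
        constructor <;> linarith
      have h7 : 0 ≤ ‖z - ξ‖ ^ (-(1 / 4) : ℝ) := Real.rpow_nonneg hx.le _
      have h8 := EKG_W_nonneg ξ
      rw [neg_zero, Real.rpow_zero]
      calc Wt 1 ξ * |Real.log ‖z - ξ‖| ≤ Wt 1 ξ * (c * (‖z - ξ‖ ^ (-(1 / 4) : ℝ) + 1)) := by
            refine mul_le_mul_of_nonneg_left (h.trans ?_) h8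
            rw [hc]
            refine mul_le_mul_of_nonneg_right (by linarith) (by linarith)
        _ = _ := by ring
    have hmeas : Measurable fun ξ : ℂ => Wt 1 ξ * |Real.log ‖z - ξ‖| := by
      have hl : Measurable fun ξ : ℂ => Real.log ‖z - ξ‖ :=
        Real.measurable_log.comp (measurable_const.sub measurable_id).norm
      exact (hC.2.2.2.1 1).mul (continuous_abs.measurable.comp hl)
    have hfI : IntegrableOn (fun ξ : ℂ => Wt 1 ξ * |Real.log ‖z - ξ‖|) (Metric.ball 0 R) := by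
      refine Integrable.mono' hI hmeas.aestronglyMeasurable ?_
      filter_upwards [hae] with ξ hξ
      rw [Real.norm_of_nonneg (mul_nonneg (EKG_W_nonneg ξ) (abs_nonneg _))]
      exact hξ
    refine ⟨hfI, (integral_mono_ae hfI hI hae).trans ?_⟩
    rw [integral_const_mul, integral_add (h5 z).1 (h4 z).1]
    have i1 := (h5 z).2
    have i2 := (h4 z).2
    have i3 := le_abs_self C5
    have i4 := le_abs_self C4
    have i5 : c * ((∫ ξ in Metric.ball (0 : ℂ) R, Wt 1 ξ * ‖z - ξ‖ ^ (-(1 / 4) : ℝ)) +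
        ∫ ξ in Metric.ball (0 : ℂ) R, Wt 1 ξ * ‖z - ξ‖ ^ (-(0 : ℝ))) ≤ c * (|C5| + |C4|) :=
      mul_le_mul_of_nonneg_left (add_le_add (i1.trans i3) (i2.trans i4)) hc0
    refine i5.trans ?_
    have : 0 ≤ C1 * B := mul_nonneg hC1 hB0
    have := abs_nonneg C2
    linarith

end

end Pool.Agent.DL
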