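import Pool.Agent.helper22.DL.SpecE1

/-! # Project dl, module EKH: compact operators from kernels -/

namespace Pool.Agent.DL

open Matrix Complex MeasureTheory Set Filter Topology
open scoped ComplexOrder Manifold ContDiff ComplexConjugate

theorem EKH_pr_cont : Continuous pr := by
  unfold pr
  refine Continuous.subtype_mk ?_ _
  refine continuous_id.div ?_ ?_
  · exact continuous_ofReal.comp (continuous_const.max continuous_norm)
  · intro z
    exact ofReal_ne_zero.2 (lt_of_lt_of_le one_pos (le_max_left _ _)).ne'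

section

variable {𝕜 : Type} [RCLike 𝕜]

theorem EKH_int (k : ℂ → 𝕜) (h : IntegrableOn k Dk) (f : C(Dk, 𝕜)) :
    IntegrableOn (fun ξ => k ξ * f (pr ξ)) Dk := by
  refine Integrable.mul_bdd (c := ‖f‖) h ?_ ?_
  · exact (f.continuous.comp EKH_pr_cont).aestronglyMeasurable
  · exact Eventually.of_forall fun ξ => f.norm_coe_le_norm _

theorem EKH_bd (k : ℂ → 𝕜) (h : IntegrableOn k Dk) (f : C(Dk, 𝕜)) :
    ‖∫ ξ in Dk, k ξ * f (pr ξ)‖ ≤ (∫ ξ in Dk, ‖k ξ‖) * ‖f‖ := by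
  rw [← integral_mul_const]
  refine norm_integral_le_of_norm_le (h.norm.mul_const _) ?_
  refine Eventually.of_forall fun ξ => ?_
  rw [norm_mul]
  exact mul_le_mul_of_nonneg_left (f.norm_coe_le_norm _) (norm_nonneg _)

theorem EKH_diff (k k' : ℂ → 𝕜) (h : IntegrableOn k Dk) (h' : IntegrableOn k' Dk)
    (f : C(Dk, 𝕜)) :
    ‖(∫ ξ in Dk, k ξ * f (pr ξ)) - ∫ ξ in Dk, k' ξ * f (pr ξ)‖ ≤
      (∫ ξ in Dk, ‖k ξ - k' ξ‖) * ‖f‖ := by
  rw [← integral_sub (EKH_int k h f) (EKH_int k' h' f)]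
  have e : (fun ξ => k ξ * f (pr ξ) - k' ξ * f (pr ξ)) = fun ξ => (k ξ - k' ξ) * f (pr ξ) := by
    funext ξ
    ring
  rw [e]
  exact EKH_bd (fun ξ => k ξ - k' ξ) (h.sub h') f

theorem EKH_D (K : ℂ → ℂ → 𝕜) (hK : GK K) (z0 : Dk) :
    Tendsto (fun z : Dk => ∫ ξ in Dk, ‖K z ξ - K z0 ξ‖) (𝓝 z0) (𝓝 0) :=
  (hK.2 z0 z0.2).comp (tendsto_nhdsWithin_iff.2
    ⟨continuous_subtype_val.tendsto z0, Eventually.of_forall fun z => z.2⟩)

theorem EKH_cont (K : ℂ → ℂ → 𝕜) (hK : GK K) (f : C(Dk, 𝕜)) :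
    Continuous fun z : Dk => ∫ ξ in Dk, K z ξ * f (pr ξ) := by
  rw [continuous_iff_continuousAt]
  intro z0
  rw [ContinuousAt, tendsto_iff_norm_sub_tendsto_zero]
  have h := (EKH_D K hK z0).mul_const ‖f‖
  rw [zero_mul] at h
  exact squeeze_zero (fun z => norm_nonneg _)
    (fun z => EKH_diff (K z) (K z0) (hK.1 z z.2) (hK.1 z0 z0.2) f) h

theorem EKH_kcont (K : ℂ → ℂ → 𝕜) (hK : GK K) :
    Continuous fun z : Dk => ∫ ξ in Dk, ‖K z ξ‖ := by
  rw [continuous_iff_continuousAt]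
  intro z0
  rw [ContinuousAt, tendsto_iff_norm_sub_tendsto_zero]
  refine squeeze_zero (fun z => norm_nonneg _) (fun z => ?_) (EKH_D K hK z0)
  rw [← integral_sub (hK.1 z z.2).norm (hK.1 z0 z0.2).norm]
  refine norm_integral_le_of_norm_le ((hK.1 z z.2).sub (hK.1 z0 z0.2)).norm ?_
  refine Eventually.of_forall fun ξ => ?_
  rw [Real.norm_eq_abs]
  exact abs_norm_sub_norm_le _ _

/-- the operator as a linear map -/
noncomputable def EKH_T (K : ℂ → ℂ → 𝕜) (hK : GK K) : C(Dk, 𝕜) →ₗ[ℝ] C(Dk, 𝕜) where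
  toFun f := ⟨fun z : Dk => ∫ ξ in Dk, K z ξ * f (pr ξ), EKH_cont K hK f⟩
  map_add' f g := by
    ext z
    simp only [ContinuousMap.coe_mk, ContinuousMap.add_apply, mul_add]
    exact integral_add (EKH_int _ (hK.1 z z.2) f) (EKH_int _ (hK.1 z z.2) g)
  map_smul' c f := by
    ext z
    simp only [ContinuousMap.coe_mk, ContinuousMap.smul_apply, mul_smul_comm, RingHom.id_apply]
    exact integral_smul c _

theorem EKH_T_apply (K : ℂ → ℂ → 𝕜) (hK : GK K) (f : C(Dk, 𝕜)) (z : Dk) :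
    EKH_T K hK f z = ∫ ξ in Dk, K z ξ * f (pr ξ) := rfl

end

theorem EKH : EKH_stmt := by
  intro 𝕜 _ K hK
  obtain ⟨M, hM⟩ := isCompact_univ.exists_bound_of_continuousOn
    (EKH_kcont K hK).continuousOn
  have hM' : ∀ z : Dk, ∫ ξ in Dk, ‖K z ξ‖ ≤ M := fun z =>
    (le_abs_self _).trans (hM z (mem_univ z))
  have hM0 : 0 ≤ M := (norm_nonneg _).trans (hM ⟨0, by simp⟩ (mem_univ _))
  have hTb : ∀ f : C(Dk, 𝕜), ∀ z : Dk, ‖EKH_T K hK f z‖ ≤ M * ‖f‖ := by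
    intro f z
    rw [EKH_T_apply]
    exact (EKH_bd (K z) (hK.1 z z.2) f).trans
      (mul_le_mul_of_nonneg_right (hM' z) (norm_nonneg _))
  have hTn : ∀ f : C(Dk, 𝕜), ‖EKH_T K hK f‖ ≤ M * ‖f‖ := fun f =>
    (ContinuousMap.norm_le _ (mul_nonneg hM0 (norm_nonneg _))).2 (hTb f)
  refine ⟨(EKH_T K hK).mkContinuous M hTn, ?_, fun f z => rfl⟩
  rw [isCompactOperator_iff_exists_mem_nhds_isCompact_closure_image]
  refine ⟨Metric.ball 0 1, Metric.ball_mem_nhds 0 one_pos, ?_⟩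
  set A : Set C(Dk, 𝕜) := (EKH_T K hK).mkContinuous M hTn '' Metric.ball 0 1 with hA
  set e := (ContinuousMap.isometryEquivBoundedOfCompact Dk 𝕜).toHomeomorph with he
  have hcomp : IsCompact (closure (e '' A)) := by
    refine BoundedContinuousFunction.arzela_ascoli (Metric.closedBall (0 : 𝕜) M)
      (isCompact_closedBall 0 M) _ ?_ ?_
    · rintro g x ⟨_, ⟨f, hf, rfl⟩, rfl⟩
      rw [mem_closedBall_zero_iff]
      rw [mem_ball_zero_iff] at hf
      refine (hTb f x).trans ?_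
      calc M * ‖f‖ ≤ M * 1 := mul_le_mul_of_nonneg_left hf.le hM0
        _ = M := mul_one M
    · intro z0
      rw [Metric.equicontinuousAt_iff]
      intro ε hε
      have h := (EKH_D K hK z0).eventually_lt_const hε
      rw [Metric.eventually_nhds_iff] at h
      obtain ⟨δ, hδ, h⟩ := h
      refine ⟨δ, hδ, fun z hz => ?_⟩
      rintro ⟨_, ⟨_, ⟨f, hf, rfl⟩, rfl⟩⟩
      rw [mem_ball_zero_iff] at hf
      rw [dist_comm, dist_eq_norm]
      have h1 := EKH_diff (K z) (K z0) (hK.1 z z.2) (hK.1 z0 z0.2) f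
      have h2 := h hz
      have h3 : 0 ≤ ∫ ξ in Dk, ‖K z ξ - K z0 ξ‖ := integral_nonneg fun ξ => norm_nonneg _
      refine lt_of_le_of_lt h1 (lt_of_le_of_lt ?_ h2)
      calc (∫ ξ in Dk, ‖K z ξ - K z0 ξ‖) * ‖f‖ ≤ (∫ ξ in Dk, ‖K z ξ - K z0 ξ‖) * 1 :=
            mul_le_mul_of_nonneg_left hf.le h3
        _ = _ := mul_one _
  rw [← e.image_closure] at hcomp
  exact e.isCompact_image.1 hcomp

end Pool.Agent.DL
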