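import Pool.Agent.helper67.DL.SpecL

/-! # Project dl, module FE: eigenvalues of the family -/

namespace Pool.Agent.DL

open Matrix Complex

theorem FE_char (s q r : ℂ) (hr : r ^ 2 = q) :
    (!![0, (3 * s ^ 2 + q) / 2, -2 * s * (s ^ 2 - q);
     1, 0, (3 * s ^ 2 + q) / 2;
     0, 1, 0] : Matrix (Fin 3) (Fin 3) ℂ).charpoly =
      (Polynomial.X - Polynomial.C (-2 * s)) * (Polynomial.X - Polynomial.C (s + r)) *
        (Polynomial.X - Polynomial.C (s - r)) := by
  have hq : Polynomial.C q = (Polynomial.C r) ^ 2 := by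
    rw [← hr, map_pow]
  have h2 : (Polynomial.C ((3 * s ^ 2 + q) / 2) : Polynomial ℂ) * 2 =
      3 * Polynomial.C s ^ 2 + Polynomial.C r ^ 2 := by
    rw [← hq]
    have h3 : (2 : Polynomial ℂ) = Polynomial.C 2 := rfl
    have h4 : (3 : Polynomial ℂ) = Polynomial.C 3 := rfl
    rw [h3, h4, ← map_mul, ← map_pow, ← map_mul, ← map_add]
    congr 1
    ring
  have h5 : (Polynomial.C (-2 * s * (s ^ 2 - q)) : Polynomial ℂ) =
      -2 * Polynomial.C s * (Polynomial.C s ^ 2 - Polynomial.C r ^ 2) := by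
    rw [← hq]
    have h3 : (-2 : Polynomial ℂ) = Polynomial.C (-2) := by
      rw [map_neg]
      rfl
    rw [h3, map_mul, map_mul, map_sub, map_pow]
  have h6 : (Polynomial.C (-2 * s) : Polynomial ℂ) = -2 * Polynomial.C s := by
    have h3 : (-2 : Polynomial ℂ) = Polynomial.C (-2) := by
      rw [map_neg]
      rfl
    rw [h3, map_mul]
  rw [Matrix.charpoly, Matrix.det_fin_three]
  simp only [Matrix.charmatrix_apply, Matrix.of_apply, Matrix.cons_val', Matrix.cons_val_zero,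
    Matrix.cons_val_one, Matrix.cons_val, Matrix.diagonal_apply_eq, ne_eq, Fin.reduceEq,
    not_false_eq_true, Matrix.diagonal_apply_ne, map_zero, map_one, h5, h6, map_add, map_sub]
  linear_combination (-Polynomial.X) * h2

theorem FE : FE_stmt := by
  intro t z
  obtain ⟨r, hr⟩ := IsAlgClosed.exists_pow_nat_eq (qq t z) (n := 2) (by norm_num)
  refine ⟨![-2 * ss t z, ss t z + r, ss t z - r], ?_, ?_⟩
  · rw [Fin.prod_univ_three]
    exact FE_char (ss t z) (qq t z) r hr
  · rw [Fin.sum_univ_three]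
    have e0 : (![-2 * ss t z, ss t z + r, ss t z - r] : Fin 3 → ℂ) 0 = -2 * ss t z := rfl
    have e1 : (![-2 * ss t z, ss t z + r, ss t z - r] : Fin 3 → ℂ) 1 = ss t z + r := rfl
    have e2 : (![-2 * ss t z, ss t z + r, ss t z - r] : Fin 3 → ℂ) 2 = ss t z - r := rfl
    rw [e0, e1, e2]
    have h1 : ‖ss t z + r‖ ^ 2 + ‖ss t z - r‖ ^ 2 = 2 * (‖ss t z‖ ^ 2 + ‖r‖ ^ 2) := by
      have := parallelogram_law_with_norm ℝ (ss t z) r
      nlinarith [this]
    have h2 : ‖-2 * ss t z‖ ^ 2 = 4 * ‖ss t z‖ ^ 2 := by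
      rw [norm_mul, norm_neg, mul_pow]
      norm_num
    have h3 : ‖ss t z‖ ^ 2 = t ^ 2 * ‖z‖ ^ 2 / 9 := by
      unfold ss
      rw [norm_div, norm_mul, norm_mul, Complex.norm_I, Complex.norm_real, Real.norm_eq_abs,
        div_pow, mul_pow, mul_pow, sq_abs]
      norm_num
    have h4 : ‖r‖ ^ 2 ≤ t ^ 2 * (1 + ‖z‖ ^ 2) := by
      rw [← norm_pow, hr]
      unfold qq
      rw [norm_mul, norm_pow, Complex.norm_real, Real.norm_eq_abs, sq_abs]
      refine mul_le_mul_of_nonneg_left ?_ (sq_nonneg t)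
      refine (norm_sub_le _ _).trans ?_
      rw [norm_one, norm_pow]
    rw [h2, add_assoc, h1, h3]
    nlinarith [mul_nonneg (sq_nonneg t) (sq_nonneg ‖z‖), sq_nonneg t]

end Pool.Agent.DL
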