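import Pool.Agent.helper22.DL.SpecE1

/-! # Project dl, module EKT: the three operators -/

namespace Pool.Agent.DL

open Matrix Complex MeasureTheory Set Filter Topology
open scoped ComplexOrder Manifold ContDiff ComplexConjugate

theorem EKT_op {𝕜 : Type} [RCLike 𝕜] (T1 T2 : C(Dk, 𝕜) →L[ℝ] C(Dk, 𝕜)) (r : ℝ)
    (h1 : IsCompactOperator T1) (h2 : IsCompactOperator T2) :
    ∃ T : (Bool → C(Dk, 𝕜)) →L[ℝ] (Bool → C(Dk, 𝕜)), IsCompactOperator T ∧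
      ∀ f j, T f j = r • (T1 (f j) + T2 (f (!j))) := by
  set L : Bool → ((Bool → C(Dk, 𝕜)) →L[ℝ] C(Dk, 𝕜)) := fun j =>
    r • (T1.comp (ContinuousLinearMap.proj (R := ℝ) (φ := fun _ : Bool => C(Dk, 𝕜)) j) +
      T2.comp (ContinuousLinearMap.proj (R := ℝ) (φ := fun _ : Bool => C(Dk, 𝕜)) (!j))) with hL
  have hLc : ∀ j, IsCompactOperator (L j) := fun j =>
    ((h1.comp_clm (ContinuousLinearMap.proj (R := ℝ) (φ := fun _ : Bool => C(Dk, 𝕜)) j)).add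
      (h2.comp_clm (ContinuousLinearMap.proj (R := ℝ) (φ := fun _ : Bool => C(Dk, 𝕜)) (!j)))).smul r
  refine ⟨(ContinuousLinearMap.single ℝ (fun _ : Bool => C(Dk, 𝕜)) false).comp (L false) +
    (ContinuousLinearMap.single ℝ (fun _ : Bool => C(Dk, 𝕜)) true).comp (L true), ?_, ?_⟩
  · have a1 := (hLc false).clm_comp (ContinuousLinearMap.single ℝ (fun _ : Bool => C(Dk, 𝕜)) false)
    have a2 := (hLc true).clm_comp (ContinuousLinearMap.single ℝ (fun _ : Bool => C(Dk, 𝕜)) true)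
    exact a1.add a2
  · intro f j
    cases j <;> simp [hL]

theorem EKT_W (κ : ℝ) (ξ : ℂ) : Wt κ ξ = κ * Wt 1 ξ := by
  unfold Wt
  ring

theorem EKT (hH : EKH_stmt) (hE : EKE_stmt) (hF : EKF_stmt) (hG : EKG_stmt) : EKT_stmt := by
  intro κ
  obtain ⟨T1, c1, e1⟩ := hH ℂ _ hE.1
  obtain ⟨T2, c2, e2⟩ := hH ℂ _ hE.2
  obtain ⟨T3, c3, e3⟩ := hH ℂ _ hF.1
  obtain ⟨T4, c4, e4⟩ := hH ℂ _ hF.2
  obtain ⟨T5, c5, e5⟩ := hH ℝ _ hG.1
  obtain ⟨T6, c6, e6⟩ := hH ℝ _ hG.2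
  obtain ⟨TBo, hBc, hB⟩ := EKT_op T1 T2 (1 / Real.pi) c1 c2
  obtain ⟨TGo, -, hGo⟩ := EKT_op T3 (-T4) (κ / Real.pi) c3 c4.neg
  obtain ⟨TUo, hUc, hU⟩ := EKT_op T5 T6 (2 * κ / Real.pi) c5 c6
  refine ⟨TBo, TGo, TUo, hBc, hUc, ?_, ?_, ?_⟩
  · intro f j z
    rw [hB, ContinuousMap.smul_apply, ContinuousMap.add_apply, e1, e2]
    unfold TB
    rw [Complex.real_smul]
    push_cast
    congr 2
    · refine integral_congr_ae (Eventually.of_forall fun ξ => ?_)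
      simp only
      ring
    · rw [← integral_const_mul]
      refine integral_congr_ae (Eventually.of_forall fun ξ => ?_)
      simp only
      ring
  · intro f j z
    rw [hGo, ContinuousMap.smul_apply, ContinuousMap.add_apply, _root_.neg_apply,
      ContinuousMap.neg_apply, e3, e4]
    unfold TG
    rw [Complex.real_smul]
    have h3 : (∫ ξ in Dk, (Wt κ ξ : ℂ) * f j (pr ξ) / ((z : ℂ) - ξ)) =
        (κ : ℂ) * ∫ ξ in Dk, (Wt 1 ξ : ℂ) / ((z : ℂ) - ξ) * f j (pr ξ) := by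
      rw [← integral_const_mul]
      refine integral_congr_ae (Eventually.of_forall fun ξ => ?_)
      simp only
      rw [EKT_W κ ξ]
      push_cast
      ring
    have h4 : (∫ ξ in Dk, ξ ^ 3 * ((Wt κ ξ : ℂ) * f (!j) (pr ξ)) / (1 - (z : ℂ) * ξ)) =
        (κ : ℂ) * ∫ ξ in Dk, (Wt 1 ξ : ℂ) * (ξ ^ 3 / (1 - (z : ℂ) * ξ)) * f (!j) (pr ξ) := by
      rw [← integral_const_mul]
      refine integral_congr_ae (Eventually.of_forall fun ξ => ?_)
      simp only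
      rw [EKT_W κ ξ]
      push_cast
      ring
    have h5 : (∫ ξ in Dk, ((mt (z : ℂ) : ℝ) : ℂ) * ((Wt 1 ξ : ℂ) / ((z : ℂ) - ξ)) * f j (pr ξ)) =
        ((mt (z : ℂ) : ℝ) : ℂ) * ∫ ξ in Dk, (Wt 1 ξ : ℂ) / ((z : ℂ) - ξ) * f j (pr ξ) := by
      rw [← integral_const_mul]
      refine integral_congr_ae (Eventually.of_forall fun ξ => ?_)
      simp only
      ring
    have h6 : (∫ ξ in Dk, ((mt (z : ℂ) : ℝ) : ℂ) * ((Wt 1 ξ : ℂ) * (ξ ^ 3 / (1 - (z : ℂ) * ξ))) *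
        f (!j) (pr ξ)) = ((mt (z : ℂ) : ℝ) : ℂ) *
          ∫ ξ in Dk, (Wt 1 ξ : ℂ) * (ξ ^ 3 / (1 - (z : ℂ) * ξ)) * f (!j) (pr ξ) := by
      rw [← integral_const_mul]
      refine integral_congr_ae (Eventually.of_forall fun ξ => ?_)
      simp only
      ring
    rw [h3, h4, h5, h6]
    push_cast
    ring
  · intro f j z
    rw [hU, ContinuousMap.smul_apply, ContinuousMap.add_apply, e5, e6]
    unfold TU
    have h3 : (∫ ξ in Dk, Real.log ‖(z : ℂ) - ξ‖ * (Wt κ ξ * f j (pr ξ))) =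
        κ * ∫ ξ in Dk, Wt 1 ξ * Real.log ‖(z : ℂ) - ξ‖ * f j (pr ξ) := by
      rw [← integral_const_mul]
      refine integral_congr_ae (Eventually.of_forall fun ξ => ?_)
      simp only
      rw [EKT_W κ ξ]
      ring
    have h4 : (∫ ξ in Dk, Real.log ‖1 - (z : ℂ) * ξ‖ * (Wt κ ξ * f (!j) (pr ξ))) =
        κ * ∫ ξ in Dk, Wt 1 ξ * Real.log ‖1 - (z : ℂ) * ξ‖ * f (!j) (pr ξ) := by
      rw [← integral_const_mul]
      refine integral_congr_ae (Eventually.of_forall fun ξ => ?_)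
      simp only
      rw [EKT_W κ ξ]
      ring
    rw [h3, h4, smul_eq_mul]
    ring

end Pool.Agent.DL
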